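import Mathlib
import Pool.Agent.MP_2b113a_an.H33.Defs
import Pool.Agent.MP_2b113a_an.H33.LieC

/-!
Unimodularity and the Mautner phenomenon.
-/

namespace Pool.Agent.MP_2b113a_an.H19

open MeasureTheory Filter Topology
open scoped InnerProductSpace
open Pool.Agent.MP_2b113a_an.H33

variable {L : Type} [LieRing L] [LieAlgebra ℚ L] {V : Type} [NormedAddCommGroup V]
  [NormedSpace ℝ V] {G : Type} [Group G] [TopologicalSpace G] {𝒢 : LG L V G}

theorem gen_eig [Module.Finite ℚ L] [LieAlgebra.IsSimple ℚ L] (F : 𝒢.Facts) (S : Subgroup G)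
    {s : L} (hs : Diag s) (h0 : s ≠ 0)
    (h : ∀ d : ℚ, d ≠ 0 → ∀ x ∈ eig s d, ∀ t : ℝ, 𝒢.E (t • 𝒢.j x) ∈ S) : S = ⊤ :=
  F.gen S {x | ∃ c, c ≠ 0 ∧ x ∈ eig s c} (fun x ⟨c, hc, hx⟩ => h c hc x hx)
    (hs.star h0 _ fun c hc _ hx => LieSubalgebra.subset_lieSpan ⟨c, hc, hx⟩)

theorem conj_eig (F : 𝒢.Facts) {s x : L} {d : ℚ} (hx : x ∈ eig s d) (u t : ℝ) :
    𝒢.E (u • 𝒢.j s) * 𝒢.E (t • 𝒢.j x) * (𝒢.E (u • 𝒢.j s))⁻¹ =
      𝒢.E ((Real.exp (u * d) * t) • 𝒢.j x) := by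
  rw [𝒢.E_conj, map_smul, F.Ad_eig s d x hx, smul_smul, mul_comm]

theorem char_trivial [Module.Finite ℚ L] [LieAlgebra.IsSimple ℚ L] (F : 𝒢.Facts) {s : L}
    (hs : Diag s) (h0 : s ≠ 0) {A : Type} [CommGroup A] (χ : G →* A) (g : G) : χ g = 1 := by
  have : χ.ker = ⊤ := gen_eig F _ hs h0 fun d hd x hx t => by
    have h1 : Real.exp (1 * d) - 1 ≠ 0 := by
      rw [sub_ne_zero, one_mul, Ne, Real.exp_eq_one_iff]
      exact_mod_cast hd
    have a := congrArg χ (conj_eig F hx 1 (t / (Real.exp (1 * d) - 1)))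
    have e : Real.exp (1 * d) * (t / (Real.exp (1 * d) - 1)) =
        t / (Real.exp (1 * d) - 1) + t := by
      generalize Real.exp (1 * d) = u at h1
      field_simp; ring
    rw [e, F.E_smul, map_mul, map_mul, map_mul, map_inv, mul_inv_cancel_comm] at a
    exact MonoidHom.mem_ker.2 (left_eq_mul.1 a)
  exact MonoidHom.mem_ker.1 (this ▸ Subgroup.mem_top g)

theorem unimod : UnimodStmt := by
  intro L _ _ _ _ V _ _ G _ _ _ _ _ _ _ _ m _ 𝒢 F s hs h0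
  refine ⟨fun g => ?_⟩
  have a := congrArg Units.val
    (char_trivial F hs h0 (Measure.modularCharacter (G := G)).toHomUnits g)
  have b : Measure.modularCharacterFun g = 1 := a
  rw [Measure.map_right_mul_eq_modularCharacterFun_smul, b, one_smul]

section Rep

variable {H : Type} [NormedAddCommGroup H] [InnerProductSpace ℝ H] (ρ : G →* (H ≃ₗᵢ[ℝ] H))

/-- The stabiliser of a vector. -/
def stab (η : H) : Subgroup G where
  carrier := {g | ρ g η = η}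
  one_mem' := by simp
  mul_mem' := fun {a b} ha hb => by
    simp only [Set.mem_ofPred_eq, map_mul, LinearIsometryEquiv.coe_mul, Function.comp_apply] at *
    rw [hb, ha]
  inv_mem' := fun {a} ha => by
    simp only [Set.mem_ofPred_eq] at *
    apply (ρ a).injective
    rw [ha, map_inv]
    simp

variable {ρ}

omit [TopologicalSpace G] in
theorem norm_conj {η : H} {a : G} (ha : a ∈ stab ρ η) (g : G) :
    ‖ρ (a * g * a⁻¹) η - η‖ = ‖ρ g η - η‖ := by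
  have h1 : ρ a η = η := ha
  have h2 : ρ a⁻¹ η = η := (stab ρ η).inv_mem ha
  rw [← (ρ a).norm_map (ρ g η - η), map_sub, h1]
  simp only [map_mul, LinearIsometryEquiv.coe_mul, Function.comp_apply, h2]

theorem mem_of_tendsto_conj (hρ : ∀ η, Continuous fun g => ρ g η) {η : H} {g : G} {a h : ℕ → G}
    (ha : ∀ k, a k ∈ stab ρ η) {g₀ : G} (h0 : g₀ ∈ stab ρ η) (t1 : Tendsto h atTop (𝓝 g₀))
    (t2 : Tendsto (fun k => a k * h k * (a k)⁻¹) atTop (𝓝 g)) : g ∈ stab ρ η := by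
  have c : Continuous fun g => ‖ρ g η - η‖ := ((hρ η).sub continuous_const).norm
  have a1 := (c.tendsto _).comp t1
  have a2 := (c.tendsto _).comp t2
  have h0' : ρ g₀ η = η := h0
  rw [h0', sub_self, norm_zero] at a1
  have := tendsto_nhds_unique a2 (a1.congr fun k => (norm_conj (ha k) (h k)).symm)
  exact sub_eq_zero.1 (norm_eq_zero.1 this)

theorem E_int (F : 𝒢.Facts) {S : Subgroup G} {x : V} (h : 𝒢.E x ∈ S) (n : ℤ) :
    𝒢.E ((n : ℝ) • x) ∈ S := by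
  induction n using Int.induction_on with
  | zero => simp [F.E_zero]
  | succ n ih =>
    rw [Int.cast_add, F.E_smul, Int.cast_one, one_smul]
    exact S.mul_mem ih h
  | pred n ih =>
    have e := F.E_smul ((-(n : ℤ) - 1 : ℤ) : ℝ) 1 x
    rw [show ((-(n : ℤ) - 1 : ℤ) : ℝ) + 1 = ((-(n : ℤ) : ℤ) : ℝ) by push_cast; ring, one_smul] at e
    rw [e] at ih
    exact (S.mul_mem_cancel_right h).1 ih

theorem mautner_one [Module.Finite ℚ L] [LieAlgebra.IsSimple ℚ L] (F : 𝒢.Facts)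
    (hρ : ∀ η, Continuous fun g => ρ g η) {η : H} {s : L} (hs : Diag s) (h0 : s ≠ 0)
    (h : 𝒢.E (𝒢.j s) ∈ stab ρ η) : stab ρ η = ⊤ := by
  refine gen_eig F _ hs h0 fun d hd x hx t => ?_
  obtain ⟨ε, hε⟩ : ∃ ε : ℤ, (ε : ℝ) * d < 0 := by
    rcases lt_or_gt_of_ne hd with h | h
    · exact ⟨1, by simpa using h⟩
    · exact ⟨-1, by simpa using h⟩
  have t0 : Tendsto (fun k : ℕ => Real.exp ((ε : ℝ) * d) ^ k) atTop (𝓝 0) :=
    tendsto_pow_atTop_nhds_zero_of_lt_one (Real.exp_pos _).le (Real.exp_lt_one_iff.2 hε)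
  have t1 := (𝒢.cont_E.tendsto _).comp ((t0.mul_const t).smul_const (𝒢.j x))
  rw [zero_mul, zero_smul, F.E_zero] at t1
  refine mem_of_tendsto_conj hρ (a := fun k : ℕ => 𝒢.E (((-(k * ε) : ℤ) : ℝ) • 𝒢.j s))
    (fun k => E_int F h _) (stab ρ η).one_mem t1 (tendsto_const_nhds.congr fun k => ?_)
  simp only [Function.comp_apply]
  rw [conj_eig F hx, ← mul_assoc, ← Real.exp_nat_mul, ← Real.exp_add]
  have : (((-(k * ε) : ℤ) : ℝ)) * d + k * (ε * d) = 0 := by push_cast; ring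
  rw [this, Real.exp_zero, one_mul]

theorem exp_two [CompleteSpace V] (A : V →L[ℝ] V) {z : V} (h : A (A z) = 0) :
    NormedSpace.exp A z = z + A z := by
  have a := (NormedSpace.exp_series_hasSum_exp' (𝕂 := ℝ) A).mapL (ContinuousLinearMap.apply ℝ V z)
  have b : HasSum (fun n : ℕ => ContinuousLinearMap.apply ℝ V z ((n.factorial⁻¹ : ℝ) • A ^ n))
      (∑ n ∈ Finset.range 2, ContinuousLinearMap.apply ℝ V z ((n.factorial⁻¹ : ℝ) • A ^ n)) := by
    refine hasSum_sum_of_ne_finset_zero fun n hn => ?_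
    obtain ⟨k, rfl⟩ : ∃ k, n = k + 2 := ⟨n - 2, by simp at hn; omega⟩
    simp [pow_add, sq, h]
  have := a.unique b
  simpa [Finset.sum_range_succ] using this

theorem mautner_shear [FiniteDimensional ℝ V] (hρ : ∀ η, Continuous fun g => ρ g η) (F : 𝒢.Facts)
    {η : H} {X v Z : L} (hZ : ⁅v, Z⁆ = X) (hX : ⁅X, v⁆ = 0)
    (h : ∀ t : ℝ, 𝒢.E (t • 𝒢.j v) ∈ stab ρ η) (s : ℝ) : 𝒢.E (s • 𝒢.j X) ∈ stab ρ η := by
  have : CompleteSpace V := FiniteDimensional.complete ℝ V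
  have b1 : 𝒢.br (𝒢.j v) (𝒢.j Z) = 𝒢.j X := by rw [𝒢.br_j, 𝒢.ext_j, ad_apply, hZ]
  have b2 : 𝒢.br (𝒢.j v) (𝒢.j X) = 0 := by
    rw [𝒢.br_j, 𝒢.ext_j, ad_apply, ← lie_skew, hX, neg_zero, map_zero]
  have e : ∀ t : ℝ, 𝒢.Ad (𝒢.E (t • 𝒢.j v)) (𝒢.j Z) = 𝒢.j Z + t • 𝒢.j X := fun t => by
    rw [𝒢.Ad_E, exp_two _ (by simp [b1, b2])]
    simp [b1]
  have t0 : Tendsto (fun k : ℕ => (1 / ((k : ℝ) + 1)) • 𝒢.j Z) atTop (𝓝 0) := by
    simpa using (tendsto_one_div_add_atTop_nhds_zero_nat (𝕜 := ℝ)).smul_const (𝒢.j Z)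
  have t1 := (𝒢.cont_E.tendsto _).comp t0
  rw [F.E_zero] at t1
  have t2 := (𝒢.cont_E.tendsto _).comp (t0.add_const (s • 𝒢.j X))
  rw [zero_add] at t2
  refine mem_of_tendsto_conj hρ (a := fun k : ℕ => 𝒢.E ((((k : ℝ) + 1) * s) • 𝒢.j v))
    (fun k => h _) (stab ρ η).one_mem t1 (t2.congr fun k => ?_)
  simp only [Function.comp_apply]
  rw [𝒢.E_conj, map_smul, e, smul_add, smul_smul, ← mul_assoc,
    one_div_mul_cancel (by positivity), one_mul]

theorem mautner : MautnerStmt := by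
  intro L _ _ _ _ V _ _ _ G _ _ _ 𝒢 F H _ _ ρ hρ η
  have top : stab ρ η = ⊤ → ∀ g, ρ g η = η := fun h g =>
    show g ∈ stab ρ η from h ▸ Subgroup.mem_top g
  refine ⟨fun s hs h0 h => top (mautner_one F hρ hs h0 h), ?_⟩
  rintro X Y v w hs h0 ⟨Z, hZ⟩ hX ⟨Z', hZ'⟩ hY hv hw
  obtain ⟨f, hf, hb⟩ := F.sub (stab ρ η) (isClosed_eq (hρ η) continuous_const)
  have := (hf _).1 (hb _ ((hf _).2 (mautner_shear hρ F hZ hX hv)) _
    ((hf _).2 (mautner_shear hρ F hZ' hY hw))) 1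
  rw [one_smul, 𝒢.br_j, 𝒢.ext_j, ad_apply] at this
  exact top (mautner_one F hρ hs h0 this)

end Rep

end Pool.Agent.MP_2b113a_an.H19
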