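import Mathlib
import Pool.Agent.MP_2b113a_an.H33.Defs
import Pool.Agent.MP_2b113a_an.H36.PD
import Pool.Agent.MP_2b113a_an.H83.SpecB
import Pool.Agent.MP_2b113a_an.H46.Torus

/-!
Relative property (T) for the plane under two shears.
-/

namespace Pool.Agent.MP_2b113a_an.H19

open MeasureTheory ProbabilityTheory Filter Topology
open scoped ENNReal NNReal InnerProductSpace
open Pool.Agent.MP_2b113a_an.H83

variable {H : Type} [NormedAddCommGroup H] [InnerProductSpace ℝ H]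

/-- Continuous orthogonal representations of the plane. -/
structure Rp (ρ : ℝ × ℝ → (H ≃ₗᵢ[ℝ] H)) : Prop where
  add : ∀ p q, ρ (p + q) = ρ p * ρ q
  cont : ∀ v, Continuous fun q => ρ q v

/-- The diagonal matrix coefficient. -/
noncomputable def co (ρ : ℝ × ℝ → (H ≃ₗᵢ[ℝ] H)) (η : H) (q : ℝ × ℝ) : ℝ := ⟪ρ q η, η⟫_ℝ

variable {ρ : ℝ × ℝ → (H ≃ₗᵢ[ℝ] H)}

lemma abs_in (g : H ≃ₗᵢ[ℝ] H) (w η : H) : |⟪g w, η⟫_ℝ| ≤ ‖w‖ * ‖η‖ := by
  have := abs_real_inner_le_norm (g w) η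
  rwa [LinearIsometryEquiv.norm_map] at this

lemma abs_co (η : H) (q : ℝ × ℝ) : |co ρ η q| ≤ ‖η‖ ^ 2 := by
  rw [sq]; exact abs_in _ _ _

lemma co_eq (η : H) (q : ℝ × ℝ) : co ρ η q = ‖η‖ ^ 2 - ‖ρ q η - η‖ ^ 2 / 2 := by
  rw [norm_sub_sq_real, LinearIsometryEquiv.norm_map, co]; ring

lemma co_par (ξ η : H) (q : ℝ × ℝ) :
    co ρ (ξ + η) q + co ρ (ξ - η) q = 2 * (co ρ ξ q + co ρ η q) := by
  simp only [co, map_add, map_sub, inner_add_left, inner_add_right, inner_sub_left,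
    inner_sub_right]
  ring

namespace Rp

lemma rotate (h : Rp ρ) (c s : ℝ) : Rp fun q => ρ (rot c s q) :=
  ⟨fun p q => by simp only [rot_add, h.add], fun v => (h.cont v).comp (continuous_rot c s)⟩

lemma co_sub (h : Rp ρ) (η : H) (p q : ℝ × ℝ) : co ρ η (p - q) = ⟪ρ p η, ρ q η⟫_ℝ := by
  have : ρ p = ρ q * ρ (p - q) := by rw [← h.add]; congr 1; abel
  rw [this, co, LinearIsometryEquiv.coe_mul, Function.comp_apply,
    LinearIsometryEquiv.inner_map_map]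

lemma cont_in (h : Rp ρ) (w η : H) : Continuous fun q => ⟪ρ q w, η⟫_ℝ :=
  (h.cont w).inner continuous_const

lemma bd_in (h : Rp ρ) (w η : H) : Bd fun q => ⟪ρ q w, η⟫_ℝ :=
  ⟨(h.cont_in w η).measurable, _, fun _ => abs_in _ _ _⟩

lemma bd_co (h : Rp ρ) (η : H) : Bd (co ρ η) := h.bd_in η η

lemma pd_co [CompleteSpace H] (h : Rp ρ) (η : H) : PD (co ρ η) := by
  refine ⟨(h.bd_co η).m, (h.bd_co η).b, fun g hg hi => ?_⟩
  have i1 : Integrable fun p => g p • ρ p η := by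
    refine (hi.norm.mul_const ‖η‖).mono'
      (hg.aestronglyMeasurable.smul (h.cont η).aestronglyMeasurable) (ae_of_all _ fun p => ?_)
    rw [norm_smul, LinearIsometryEquiv.norm_map]
  have e : ∀ p q, g p * g q * co ρ η (p - q) = ⟪g p • ρ p η, g q • ρ q η⟫_ℝ := fun p q => by
    rw [h.co_sub, real_inner_smul_left, real_inner_smul_right, mul_assoc]
  simp_rw [e, integral_inner i1]
  simp_rw [fun p => real_inner_comm (∫ q, g q • ρ q η) (g p • ρ p η)]
  rw [integral_inner i1]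
  exact real_inner_self_nonneg

lemma Gi_le (h : Rp ρ) (η : H) (a b : ℝ≥0) : Gi (co ρ η) a b ≤ ‖η‖ ^ 2 :=
  (integral_mono ((h.bd_co η).int a b) (integrable_const _)
    fun q => (le_abs_self _).trans (abs_co η q)).trans (by simp)

variable [CompleteSpace H] {κ : ℝ≥0}

lemma Dd_le (h : Rp ρ) (P : PDk κ) (η : H) (N m₁ : ℕ) : Dd κ N m₁ 0 (co ρ η) ≤ ‖η‖ ^ 2 := by
  have := P.sum_Dd (h.pd_co η) (N₀ := 1) (N := N) (by omega) m₁
  rw [Finset.sum_range_one] at this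
  exact this.trans (h.Gi_le η _ _)

lemma Dd_lip (h : Rp ρ) (P : PDk κ) (ξ η : H) (N m₁ : ℕ) :
    Dd κ N m₁ 0 (co ρ ξ) ≤ 2 * Dd κ N m₁ 0 (co ρ η) + 2 * ‖ξ - η‖ ^ 2 := by
  have e := congrArg (Dd κ N m₁ 0) (funext (co_par (ρ := ρ) η (ξ - η)))
  rw [Dd_add (h.bd_co _) (h.bd_co _), Dd_mul, Dd_add (h.bd_co _) (h.bd_co _)] at e
  simp only [add_sub_cancel] at e
  linarith [P.Dd_nonneg (h.pd_co (η - (ξ - η))) N m₁ 0, h.Dd_le P (ξ - η) N m₁]

/-- The spectral mass near the diagonal directions is small. -/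
lemma frame (h : Rp ρ) {l : ℝ} (hl : l ≠ 0) (P : PDk (kap l)) {t : H ≃ₗᵢ[ℝ] H}
    (ht : ∀ k q, t ^ k * ρ q = ρ (dg l k q) * t ^ k) {η : H} (h1 : ‖η‖ = 1) (N m₁ : ℕ)
    (hs : ∑ k ∈ Finset.range (N + 1), ‖(t ^ k) η - η‖ ^ 2 ≤ 1) :
    Dd (kap l) N m₁ 0 (co ρ η) ≤ 4 / (N + 1) := by
  have step : ∀ k ∈ Finset.range (N + 1), Dd (kap l) N m₁ 0 (co ρ η) ≤
      2 * Dd (kap l) N m₁ k (co ρ η) + 2 * ‖(t ^ k) η - η‖ ^ 2 := fun k hk => by
    have hk' : k ≤ N := Nat.lt_succ_iff.1 (Finset.mem_range.1 hk)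
    have a := h.Dd_lip P η ((t ^ k).symm η) N m₁
    have e : co ρ ((t ^ k).symm η) = fun q => co ρ η (dg l k q) := by
      funext q
      have := congrArg (fun g : H ≃ₗᵢ[ℝ] H => g ((t ^ k).symm η)) (ht k q)
      simp only [LinearIsometryEquiv.coe_mul, Function.comp_apply,
        LinearIsometryEquiv.apply_symm_apply] at this
      rw [co, co, ← (t ^ k).inner_map_map, this, LinearIsometryEquiv.apply_symm_apply]
    have e2 : ‖η - (t ^ k).symm η‖ = ‖(t ^ k) η - η‖ := by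
      rw [← (t ^ k).norm_map, map_sub, LinearIsometryEquiv.apply_symm_apply]
    rwa [e, Dd_dg hl (h.bd_co η).m hk', e2] at a
  have b := Finset.sum_le_sum step
  rw [Finset.sum_add_distrib, ← Finset.mul_sum, ← Finset.mul_sum, Finset.sum_const,
    Finset.card_range, nsmul_eq_mul] at b
  have c := (P.sum_Dd (h.pd_co η) (N₀ := N + 1) (N := N) le_rfl m₁).trans (h.Gi_le η _ _)
  rw [h1] at c
  push_cast at b
  rw [le_div_iff₀' (by positivity)]
  linarith

end Rp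

lemma shift_le {f : ℝ × ℝ → ℝ} (hf : Measurable f) {B : ℝ} (hB : ∀ q, |f q| ≤ B) (p : ℝ × ℝ)
    {ε : ℝ} (hε : 0 < ε) : ∀ᶠ n : ℕ in atTop,
      ∫ q, f (q + p) ∂N2 n n - ∫ q, f q ∂N2 n n ≤ ε * (2 * B) := by
  obtain ⟨s₀, hs₀⟩ := N2_shift p hε
  filter_upwards [tendsto_natCast_atTop_atTop.eventually_ge_atTop s₀] with n hn
  have B0 : 0 ≤ B := (abs_nonneg _).trans (hB 0)
  have i1 : Integrable f (N2 n n) := Bd.int ⟨hf, B, hB⟩ _ _
  have i2 : Integrable (fun q => f (q + p)) (N2 n n) :=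
    Bd.int ⟨by fun_prop, B, fun q => hB _⟩ _ _
  have nn : ∀ q, 0 ≤ f q + B := fun q => by linarith [(abs_le.1 (hB q)).1]
  have a := hs₀ n (by simpa using hn) (fun q => ENNReal.ofReal (f q + B)) (by fun_prop)
  have b : ∫⁻ q, ENNReal.ofReal (f q + B) ∂N2 (2 * n) (2 * n) ≤ ENNReal.ofReal (2 * B) := by
    refine (lintegral_mono fun q => ENNReal.ofReal_le_ofReal
      (show f q + B ≤ 2 * B by linarith [(abs_le.1 (hB q)).2])).trans (by simp)
  have c := a.trans (add_le_add_right (mul_le_mul_right b _) _)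
  rw [← ofReal_integral_eq_lintegral_ofReal (f := fun q => f (q + p) + B)
      (i2.add (integrable_const B)) (ae_of_all _ fun q => nn _),
    ← ofReal_integral_eq_lintegral_ofReal (f := fun q => f q + B) (i1.add (integrable_const B))
      (ae_of_all _ fun q => nn _), ← ENNReal.ofReal_mul hε.le,
    ← ENNReal.ofReal_add (integral_nonneg fun q => nn _) (by positivity),
    ENNReal.ofReal_le_ofReal_iff (add_nonneg (integral_nonneg fun q => nn _) (by positivity)),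
    integral_add i2 (integrable_const B), integral_add i1 (integrable_const B)] at c
  linarith

lemma shift {f : ℝ × ℝ → ℝ} (hf : Bd f) (p : ℝ × ℝ) :
    Tendsto (fun n : ℕ => ∫ q, f (q + p) ∂N2 n n - ∫ q, f q ∂N2 n n) atTop (𝓝 0) := by
  obtain ⟨B, hB⟩ := hf.b
  have B0 : 0 ≤ B := (abs_nonneg _).trans (hB 0)
  have m := hf.m
  have key : ∀ e : ℝ, 0 < e → e / (2 * B + 1) * (2 * B) < e := fun e he => by
    rw [div_mul_eq_mul_div, div_lt_iff₀ (by positivity)]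
    nlinarith
  refine tendsto_order.2 ⟨fun a ha => ?_, fun a ha => ?_⟩
  · filter_upwards [shift_le (f := fun q => -f q) (by fun_prop) (B := B)
      (fun q => by rw [abs_neg]; exact hB q) p (ε := -a / (2 * B + 1))
      (div_pos (by linarith) (by positivity))] with n hn
    simp only [integral_neg] at hn
    linarith [key (-a) (by linarith)]
  · filter_upwards [shift_le m hB p (ε := a / (2 * B + 1)) (by positivity)] with n hn
    exact hn.trans_lt (key a ha)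

namespace Rp

/-- The mean ergodic theorem for Gaussian averages. -/
lemma Gi_small [CompleteSpace H] (h : Rp ρ) (h0 : ∀ v, (∀ q, ρ q v = v) → v = 0) {η : H}
    (h1 : ‖η‖ = 1) {ε : ℝ} (hε : 0 < ε) : ∃ v : ℝ≥0, v ≠ 0 ∧ Gi (co ρ η) v v ≤ ε := by
  let K : Submodule ℝ H := Submodule.span ℝ (Set.range fun x : (ℝ × ℝ) × H => ρ x.1 x.2 - x.2)
  have hK : Kᗮ = ⊥ := by
    refine (Submodule.eq_bot_iff _).2 fun v hv => h0 v fun q => ?_
    have a := (Submodule.mem_orthogonal K v).1 hv _ (Submodule.subset_span ⟨(q, v), rfl⟩)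
    simp only [inner_sub_left, real_inner_self_eq_norm_sq] at a
    have b := co_eq (ρ := ρ) v q
    rw [co] at b
    have : ‖ρ q v - v‖ ^ 2 = 0 := by linarith
    exact sub_eq_zero.1 (norm_eq_zero.1 (pow_eq_zero_iff two_ne_zero |>.1 this))
  have hd : η ∈ closure (K : Set H) := by
    have := (Submodule.topologicalClosure_eq_top_iff (K := K)).2 hK
    rw [← Submodule.topologicalClosure_coe, this]
    trivial
  have hT : ∀ w ∈ K, Tendsto (fun n : ℕ => ∫ q, ⟪ρ q w, η⟫_ℝ ∂N2 n n) atTop (𝓝 0) := by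
    intro w hw
    induction hw using Submodule.span_induction with
    | mem w hw =>
      obtain ⟨⟨p, z⟩, rfl⟩ := hw
      refine (shift (h.bd_in z η) p).congr fun n => ?_
      simp only [map_sub, inner_sub_left, h.add, LinearIsometryEquiv.coe_mul, Function.comp_apply]
      rw [integral_sub ((h.bd_in _ η).int _ _) ((h.bd_in _ η).int _ _)]
    | zero => simp
    | add a b _ _ ha hb =>
      have := ha.add hb
      rw [add_zero] at this
      refine this.congr fun n => ?_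
      simp only [map_add, inner_add_left]
      rw [integral_add ((h.bd_in _ η).int _ _) ((h.bd_in _ η).int _ _)]
    | smul c a _ ha =>
      have := ha.const_mul c
      rw [mul_zero] at this
      refine this.congr fun n => ?_
      simp only [map_smul, real_inner_smul_left, integral_const_mul]
  obtain ⟨w, hw, hd⟩ := Metric.mem_closure_iff.1 hd (ε / 2) (half_pos hε)
  obtain ⟨n, hn, hn1⟩ := (((hT w hw).eventually_le_const (half_pos hε)).and
    (eventually_ge_atTop 1)).exists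
  refine ⟨n, by exact_mod_cast (by omega : n ≠ 0), ?_⟩
  have : Gi (co ρ η) n n ≤ ∫ q, (⟪ρ q w, η⟫_ℝ + ε / 2) ∂N2 n n := by
    refine integral_mono ((h.bd_co η).int _ _) (((h.bd_in w η).int _ _).add (integrable_const _))
      fun q => ?_
    have a := (le_abs_self _).trans (abs_in (ρ q) (η - w) η)
    rw [h1, mul_one, map_sub, inner_sub_left, ← dist_eq_norm] at a
    simp only [co]
    linarith
  rw [integral_add ((h.bd_in w η).int _ _) (integrable_const _)] at this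
  simp only [integral_const, probReal_univ, one_smul] at this
  linarith

lemma tendsto_Gi (h : Rp ρ) {η : ℕ → H} (h1 : ∀ k, ‖η k‖ = 1)
    (h2 : ∀ q, Tendsto (fun k => ‖ρ q (η k) - η k‖) atTop (𝓝 0)) (a b : ℝ≥0) :
    Tendsto (fun k => Gi (co ρ (η k)) a b) atTop (𝓝 1) := by
  have := tendsto_integral_filter_of_dominated_convergence (μ := N2 a b) (l := atTop)
    (F := fun k => co ρ (η k)) (f := fun _ => (1 : ℝ)) (fun _ => (1 : ℝ))
    (Eventually.of_forall fun i => (h.bd_co _).m.aestronglyMeasurable)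
    (Eventually.of_forall fun i => ae_of_all _ fun q => by
      simpa [h1 i] using abs_co (ρ := ρ) (η i) q)
    (integrable_const _) (ae_of_all _ fun q => by
      simp only [co_eq, h1]
      simpa using (((h2 q).pow 2).div_const 2).const_sub 1)
  simpa [Gi] using this

end Rp

/-- Almost invariance along a sequence. -/
def AI (η : ℕ → H) (t : H ≃ₗᵢ[ℝ] H) : Prop := Tendsto (fun k => ‖t (η k) - η k‖) atTop (𝓝 0)

lemma AI.mul {η : ℕ → H} {s t : H ≃ₗᵢ[ℝ] H} (hs : AI η s) (ht : AI η t) : AI η (s * t) := by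
  have := Tendsto.add ht hs
  rw [add_zero] at this
  refine squeeze_zero (fun _ => norm_nonneg _) (fun k => ?_) this
  rw [← s.norm_map (t (η k) - η k), map_sub]
  exact norm_sub_le_norm_sub_add_norm_sub _ _ _

lemma AI.inv {η : ℕ → H} {s : H ≃ₗᵢ[ℝ] H} (hs : AI η s) : AI η s⁻¹ := by
  refine Tendsto.congr (fun k => ?_) hs
  rw [← s.norm_map (s⁻¹ (η k) - η k), map_sub, norm_sub_rev]
  simp

lemma AI.pow {η : ℕ → H} {s : H ≃ₗᵢ[ℝ] H} (hs : AI η s) (n : ℕ) : AI η (s ^ n) := by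
  induction n with
  | zero => simp [AI]
  | succ n ih => rw [pow_succ]; exact ih.mul hs

lemma AI.sum {η : ℕ → H} {s : H ≃ₗᵢ[ℝ] H} (hs : AI η s) (N : ℕ) :
    ∀ᶠ j in atTop, ∑ k ∈ Finset.range N, ‖(s ^ k) (η j) - η j‖ ^ 2 ≤ 1 := by
  have := tendsto_finsetSum (Finset.range N) fun k _ => Tendsto.pow (hs.pow k) 2
  refine this.eventually_le_const ?_
  simp

theorem core [CompleteSpace H] (h : Rp ρ) {l c s : ℝ} (hl : 2 ≤ l) (hcs : c ^ 2 + s ^ 2 = 1)
    (hc : c ≠ 0) (hs : s ≠ 0) {t₁ t₂ : H ≃ₗᵢ[ℝ] H}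
    (e₁ : ∀ k q, t₁ ^ k * ρ q = ρ (dg l k q) * t₁ ^ k)
    (e₂ : ∀ k q, t₂ ^ k * ρ (rot c s q) = ρ (rot c s (dg l k q)) * t₂ ^ k)
    {η : ℕ → H} (h1 : ∀ k, ‖η k‖ = 1)
    (h2 : ∀ q, Tendsto (fun k => ‖ρ q (η k) - η k‖) atTop (𝓝 0)) (a₁ : AI η t₁) (a₂ : AI η t₂) :
    ∃ v, v ≠ 0 ∧ ∀ q, ρ q v = v := by
  by_contra hn
  have h0 : ∀ v, (∀ q, ρ q v = v) → v = 0 := fun v hv => by
    by_contra hv0
    exact hn ⟨v, hv0, hv⟩
  have l0 : l ≠ 0 := by linarith
  have κ2 : 2 ≤ kap l := by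
    rw [← NNReal.coe_le_coe]
    show (2 : ℝ) ≤ l ^ 2
    nlinarith
  obtain ⟨P1, P2, P3⟩ := H36.pd _ κ2
  have P : PDk (kap l) := ⟨P1, P2⟩
  obtain ⟨c₁, hc₁, P4⟩ := P3 c s hcs hc hs
  obtain ⟨N, hN⟩ := exists_nat_gt (16 / c₁)
  obtain ⟨j, ⟨b₁, b₂⟩, b₃⟩ := (((a₁.sum (N + 1)).and (a₂.sum (N + 1))).and
    ((h.tendsto_Gi h1 h2 (kap l ^ N) (kap l ^ N)).eventually_const_le
      (show (3 / 4 : ℝ) < 1 by norm_num))).exists
  obtain ⟨v, hv, b₄⟩ := h.Gi_small h0 (h1 j) (ε := 1 / 4 / Real.exp (1 / 2)) (by positivity)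
  obtain ⟨m₁, hm⟩ := P4 _ (h.pd_co (η j)) N v hv
  rw [Finset.sum_add_distrib] at hm
  have f₁ := h.frame l0 P e₁ (h1 j) N m₁ b₁
  have f₂ := (h.rotate c s).frame l0 P e₂ (h1 j) N m₁ b₂
  have k1 := hm.trans (add_le_add f₁ f₂)
  rw [le_div_iff₀' (Real.exp_pos _)] at b₄
  have k2 : c₁ * (1 / 2) ≤ 4 / (N + 1) + 4 / (N + 1) :=
    (mul_le_mul_of_nonneg_left (by linarith) hc₁.le).trans k1
  rw [← add_div, le_div_iff₀ (by positivity)] at k2
  rw [div_lt_iff₀ hc₁] at hN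
  nlinarith

lemma pow_comm {t : H ≃ₗᵢ[ℝ] H} {e : ℤ} (h : ∀ q, t * ρ q = ρ (H46.hypA e ℝ q) * t) (k : ℕ)
    (q : ℝ × ℝ) : t ^ k * ρ q = ρ ((H46.hypA e ℝ ^ k) q) * t ^ k := by
  induction k with
  | zero => simp
  | succ k ih =>
    rw [pow_succ', pow_succ' (H46.hypA e ℝ), mul_assoc, ih, ← mul_assoc, h, mul_assoc]
    rfl

lemma inv_comm {x : H ≃ₗᵢ[ℝ] H} {f g : ℝ × ℝ → ℝ × ℝ} (h : ∀ q, x * ρ q = ρ (f q) * x)
    (hg : ∀ q, f (g q) = q) (q : ℝ × ℝ) : x⁻¹ * ρ q = ρ (g q) * x⁻¹ := by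
  have := h (g q)
  rw [hg] at this
  rw [inv_mul_eq_iff_eq_mul, ← mul_assoc, this, mul_inv_cancel_right]

theorem relT2 : H33.RelT2Stmt := by
  intro H _ _ _ ρ x y η hadd hcont hx hy h1 h2 ax ay
  have h : Rp ρ := ⟨hadd, hcont⟩
  have hx' := inv_comm (g := H33.U2 (-1)) hx fun q => by simp [H33.U2]
  have hy' := inv_comm (g := H33.L2 (-1)) hy fun q => by simp [H33.L2]
  have e₁ : ∀ q, x * y * ρ q = ρ (H46.hypA 1 ℝ q) * (x * y) := fun q => by
    rw [mul_assoc, hy, ← mul_assoc, hx, mul_assoc]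
    congr 2
    simp only [H33.U2, H33.L2, H46.hypA_apply, Prod.mk.injEq]
    constructor <;> module
  have e₂ : ∀ q, x⁻¹ * y⁻¹ * ρ q = ρ (H46.hypA (-1) ℝ q) * (x⁻¹ * y⁻¹) := fun q => by
    rw [mul_assoc, hy', ← mul_assoc, hx', mul_assoc]
    congr 2
    simp only [H33.U2, H33.L2, H46.hypA_apply, Prod.mk.injEq]
    constructor <;> module
  have g1 := H46.one_lt_gr
  have g2 := H46.gr_sq
  have n0 := H46.nr_pos
  have n2 := H46.nr_sq
  have hcs : (H46.gr / H46.nr) ^ 2 + (((1 : ℤ) : ℝ) / H46.nr) ^ 2 = 1 := by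
    field_simp
    simp [n2]
  have er : ∀ q, rot (H46.gr / H46.nr) (((1 : ℤ) : ℝ) / H46.nr)
      (rot ((H46.gr ^ 2 - 1) / H46.nr ^ 2) (-(2 * H46.gr) / H46.nr ^ 2) q) =
        rot (H46.gr / H46.nr) (((-1 : ℤ) : ℝ) / H46.nr) q := fun q => by
    simp only [rot, Prod.mk.injEq, n2]
    push_cast
    constructor <;> field_simp <;> ring
  obtain ⟨v, hv, hq⟩ := core (h.rotate (H46.gr / H46.nr) (((1 : ℤ) : ℝ) / H46.nr))
    (l := H46.gr ^ 2) (c := (H46.gr ^ 2 - 1) / H46.nr ^ 2) (s := -(2 * H46.gr) / H46.nr ^ 2)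
    (by linarith) (by rw [n2]; field_simp; ring) (div_ne_zero (by linarith) (by positivity))
    (div_ne_zero (by linarith) (by positivity)) (t₁ := x * y) (t₂ := x⁻¹ * y⁻¹)
    (fun k q => by rw [pow_comm e₁, H46.hypA_rot (by norm_num)]; rfl)
    (fun k q => by simp only [er]; rw [pow_comm e₂, H46.hypA_rot (by norm_num)]; rfl)
    h1 (fun q => h2 _) (AI.mul ax ay) (AI.mul (AI.inv ax) (AI.inv ay))
  refine ⟨v, hv, fun q => ?_⟩
  have := hq (rot (H46.gr / H46.nr) (-(((1 : ℤ) : ℝ) / H46.nr)) q)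
  rwa [rot_rot_neg hcs] at this

end Pool.Agent.MP_2b113a_an.H19
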